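import Pool.Agent.R291.PoorFilter

/-!
MP_aa1901_an.  A negative answer to Q1 in ZFC: there is a free filter on `ℕ` which is not
conglomerated and is not generated by a statistical measure.
-/

namespace Pool.Agent.Results.MP_aa1901_an.NotConglomeratedNotGenerated

open Pool.Agent.R291

/-- There is a free filter on `ℕ` which is not conglomerated and is not of the form
`{A : μ A = 1}` for any statistical measure `μ`. -/
theorem result : ∃ F : Filter ℕ, IsFree F ∧ ¬ IsConglomerated F ∧ ¬ IsGenerated F := by
  obtain ⟨F, h1, h2, h3⟩ := exists_poor_not_generated
  exact ⟨F, h1, not_conglomerated_of_poor h2, h3⟩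

end Pool.Agent.Results.MP_aa1901_an.NotConglomeratedNotGenerated
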